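import Pool.Agent.W888.GX.Exa

set_option autoImplicit false

/-!
# Branch-and-cut over exact sum-of-squares relaxations of linear degree, branching without the signs

The definitions used in the statement are in `Pool/Agent/W888/GX/Four.lean`, `Mix.lean`, `Cnf.lean`,
`Avg.lean`, `Exa.lean` and `Pool/Agent/W888/UG/Model.lean`:

* `Clause k n`, `Satisfies`, `falsified`: clauses with `k` literals over `n` variables, satisfaction
  and the number of falsified clauses of a formula;
* `cl c b`: the `2 ^ k m` clauses with `k + 1` literals which say that `∑ s, x (c j s) = b j` for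
  all `j`; the variables of the clauses are given by `c`, the signs of the literals depend on `b`;
* `Far δ c b`: every assignment falsifies at least `(1 / 2 - δ) m` of the clauses of `cl c b`;
* `LowDegree`, `IsPseudoExpectation`: the solutions of the sum-of-squares relaxation;
* `Relax D F β`: the points `μ v a = L [x v = a]` of the pseudo-expectations `L` of degree `2 D` for
  which the expected number of falsified clauses of `F` is at most `β`;
* `Tree`: branch-and-cut trees; `Tree.leaves`: the number of leaves; `Tree.Proves`: at every leaf no
  point of the relaxation satisfies all the branches above it;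
* `pruned R T C`: the number of leaves of the tree which remains when the nodes at which no point of
  `R` satisfies all the branches above it become leaves.
-/

namespace Pool.Agent.Results.MP_c62aed_lc.BranchAndCut

open Pool.Agent.W888.GX Finset
open Pool.Agent.W888.UG (Tree)

open Classical in
/-- For all `ε` in `(0, 1)` and `δ > 0` there are `k`, `M` and `γ > 0` such that for all large `n`
there are variables `c` for `M n` equations with `k + 1` variables each such that:
1. for all but a fraction of at most `2 ^ (- n)` of the right-hand sides `b`, every assignment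
falsifies at least `(1 / 2 - δ) M n` clauses;
2. if `D ≤ γ n` and a branch-and-cut tree `T` proves for all these `b` that `cl c b` is
unsatisfiable, with the relaxation of degree `2 D` in which all clauses hold, then the average over
`b` of the number of leaves of the tree pruned for `b` is at least `2 ^ ((1 - ε) n)`;
3. if `δ < 1 / 2`, then some tree with `2 ^ n` leaves is such a proof for all these `b` and all
`D ≥ k + 1`. -/
theorem result (ε δ : ℝ) (hε : 0 < ε) (hε1 : ε < 1) (hδ : 0 < δ) :
    ∃ k M : ℕ, 1 ≤ M ∧ ∃ γ : ℝ, 0 < γ ∧ ∃ n0 : ℕ, ∀ n : ℕ, n0 ≤ n →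
      ∃ c : Fin (M * n) → Fin (k + 1) → Fin n,
        ((univ.filter fun b => ¬ Far δ c b).card : ℝ) * 2 ^ n ≤ 2 ^ (M * n) ∧
        (∀ D : ℕ, (D : ℝ) ≤ γ * n → ∀ T : Tree (Fin n) (ZMod 2),
          (∀ b, Far δ c b → T.Proves (Relax D (cl c b) 0) Set.univ) →
          (2 : ℝ) ^ ((1 - ε) * n) * 2 ^ (M * n) ≤
            ∑ b ∈ univ.filter fun b => Far δ c b,
              (pruned (Relax D (cl c b) 0) T Set.univ : ℝ)) ∧
        (δ < 1 / 2 → ∃ T : Tree (Fin n) (ZMod 2), T.leaves = 2 ^ n ∧ ∀ D : ℕ, k + 1 ≤ D →
          ∀ b, Far δ c b → T.Proves (Relax D (cl c b) 0) Set.univ) :=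
  exact_all ε δ hε hε1 hδ

end Pool.Agent.Results.MP_c62aed_lc.BranchAndCut
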