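import Pool.Agent.W912.SE.Sat
import Pool.Agent.W900.CH.NELev
import Pool.Agent.W912.SE.All

/-!
# How many strings of a random oracle have to be changed to beat exhaustive search for CNFs?

The formulas are CNFs whose literals may also ask the oracle: an oracle literal says that the
string given by a list of variables and constants is (or is not) in the oracle. The number of
changes is measured by a function `g`: the oracle `A` is obtained from `O` by changing, for all
large `n`, at most `g n` of the strings of length at most `n`. If `g n ≤ 2 ^ (n ^ ε)` for every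
`ε > 0` and infinitely many `n`, then for almost every oracle `O` and all oracles `A` that are
obtained from `O` by at most `g` changes, however these changes depend on `O`, no algorithm with
oracle `A` decides satisfiability in `C (L + 1) ^ k 2 ^ (a n / b)` rounds with `a < b`, where `n` is
the number of the variables and `L` the length of the code of the formula. Such an algorithm cannot
even tell the satisfiable formulas from those in which every assignment satisfies at most the
fraction `1 - ε` of the clauses, for `ε < 1 / 2`. Otherwise every oracle `O` can be changed, by at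
most `g` changes, into an oracle `A` with `P^A = PSPACE^A`.
-/

set_option autoImplicit false

namespace Pool.Agent.Results.MP_c62aed_lc.ChangedStrings

open Pool.Agent.NPC Pool.Agent.H620R2.Gauge Pool.Agent.W900.CH Pool.Agent.W912.SE
open Pool.Agent.H628R3.RO (randomOracle)
open MeasureTheory

/-- The algorithm `M` with oracle `A` tells the satisfiable ones of the oracle formulas with at most
`w` literals in every clause from those (with at least one clause) of which every assignment
satisfies at most the fraction `1 - ε` of the clauses: within `T = C (L + 1) ^ k 2 ^ (a n / b)`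
rounds it outputs `[true]` on the former and does not output `[true]` on the latter. Here `n` is the
number of the variables that occur in the formula and `L` is the length of its code. -/
def Separates (A : Oracle) (M : Alg) (ε : ℝ) (w C k a b : ℕ) : Prop :=
  ∀ F : Formula, (∀ c ∈ F, c.length ≤ w) → ∀ T : ℕ,
    T = C * ((enc F).length + 1) ^ k * 2 ^ (a * nv F / b) →
    ((∃ y, sat A F y = F.length) → M.run A (enc F) T [] = some [true]) ∧
    (F ≠ [] → (∀ y, (sat A F y : ℝ) ≤ (1 - ε) * F.length) → M.run A (enc F) T [] ≠ some [true])

theorem result (g : ℕ → ℝ) :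
    ((∀ ε : ℝ, 0 < ε → ∃ᶠ n : ℕ in Filter.atTop, g n ≤ 2 ^ (n : ℝ) ^ ε) →
      ∀ᵐ O ∂randomOracle, ∀ A : Oracle, Close g O A →
        ∀ (M : Alg) (ε : ℝ) (w C k a b : ℕ), ε < 1 / 2 → 1 ≤ w → a < b →
          ¬ Separates A M ε w C k a b) ∧
    ((¬ ∀ ε : ℝ, 0 < ε → ∃ᶠ n : ℕ in Filter.atTop, g n ≤ 2 ^ (n : ℝ) ^ ε) →
      ∀ O : Oracle, ∃ A : Oracle, Close g O A ∧ ∀ L, IsPSPACE A L → IsP A L) := by
  refine ⟨fun hg => ?_, fun hg O => ?_⟩
  · filter_upwards [low_all hg] with O hO A hA M ε w C k a b hε hw hab h
    refine hO A hA false M ε C k a b hε hab (sep_det ?_ ?_)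
    · intro F hF h1
      exact (h F (fun c hc => (hF c hc).trans hw) _ rfl).1 h1
    · intro F hF hne hfar
      exact (h F (fun c hc => (hF c hc).trans hw) _ rfl).2 hne hfar
  · obtain ⟨A, h1, h2⟩ := exists_close_PSPACE hg O
    exact ⟨A, h1, fun L hL => isP_of_reduces (h2 L hL)⟩

end Pool.Agent.Results.MP_c62aed_lc.ChangedStrings
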