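import Mathlib
import Pool.Agent.W970.Tri.CPDefs
import Pool.Agent.W970.Tri.CP

/-!
# A strong exponential lower bound for semantic cutting planes

For every `δ > 0` and every `a` there is a constant `c` such that for all large `n` there is an
unsatisfiable CNF formula `F` with `n` variables and at most `n ^ c` clauses, each of them with
`O(log n)` literals, for which all semantic cutting planes refutations (lines: linear inequalities
with arbitrary real coefficients; inferences: every sound inference from `n ^ a` premises or less)
have at least `2 ^ ((1 / 2 - δ) * n)` lines. More generally this holds for all refutations with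
lines of the form `f ≤ g`, where `f` is an arbitrary real function of the variables in a fixed set
`U` and `g` is an arbitrary real function of the others; the first part of the theorem says that
linear inequalities are of this form for every `U`.

The formula: the variables form two points `x, y` of the cube of dimension `m`, which is almost
`n / 2`; the clauses say that for no `i` both the restriction of `x` to `w = O(log n)` given
positions is one of the `K` strings of a list and the restriction of `y` to `w` further positions
is one of the strings of another list; the positions and the strings are chosen at random. The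
lower bound is proved by symmetric approximation for triangle dags, see
`Pool.Agent.W970.Tri.Step`.
-/

namespace Pool.Agent.Results.MP_c62aed_lc.CuttingPlanes

open Filter Pool.Agent.W970.Tri

theorem result :
    (∀ (n : ℕ) (U : Finset (Fin n)) (a : Fin n → ℝ) (b : ℝ), SplitLine U (LinearLine a b)) ∧
    (∀ (δ : ℝ) (_ : 0 < δ) (a : ℕ), ∃ c : ℕ, ∀ᶠ n : ℕ in atTop,
      ∃ (U : Finset (Fin n)) (F : Finset (Clause n)),
        F.card ≤ n ^ c ∧ (∀ C ∈ F, C.card ≤ c * (Nat.log 2 n + 1)) ∧
        (∀ z, ∃ C ∈ F, ¬ C.Holds z) ∧
        ∀ (N : ℕ) (L : ℕ → (Fin n → Bool) → Prop), IsRefutation (n ^ a) F N L →
          (∀ g < N, SplitLine U (L g)) → (2 : ℝ) ^ ((1 / 2 - δ) * n) ≤ N) :=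
  ⟨fun _ U a b => splitLine_linear U a b, fun _ hδ a => cp_lower hδ a⟩

end Pool.Agent.Results.MP_c62aed_lc.CuttingPlanes
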