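import Mathlib
import Pool.Agent.H592R3.Defs
import Pool.Agent.W964.Pram.Machine
import Pool.Agent.W964.Pram.RandMachine
import Pool.Agent.W964.Pram.SatFinal

/-!
The strong exponential time hypothesis for ideal parallel random access machines (priority
concurrent writing, concurrent searching of lists of cells, arbitrary instruction set, unbounded
words, unbounded memory, different programs for different processors): `2 ^ ((1 - ε) n)`
processors do not decide in `o (n / log n)` steps whether a CNF formula with `n` variables is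
satisfiable, not even on average.
-/

set_option autoImplicit false

open SmallDepth Finset Filter Pool.Agent.W964.Pram

namespace Pool.Agent.Results.MP_c62aed_lc.ParallelMachines

open Classical in
/-- 1. For every `ε > 0` and `K` there is `C > 0` such that for `n ≥ 2` variables, `T ≥ 1` steps,
width `C T log n ≤ w ≤ n` and `M ≥ n 2 ^ w` clauses there are two probability distributions
`ν₀`, `ν₁` on CNF formulas of width at most `w` such that `ν₁` is supported on satisfiable
formulas, a formula of `ν₀` is satisfiable with probability at most `2 ^ (-(1 - ε) n / 2)`, and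
every parallel machine with at most `2 ^ ((1 - ε) n)` processors and lists of length at most
`2 ^ (K n)` has after `T` steps advantage at most `2 ^ (-w / C)` in telling `ν₀` from `ν₁`, and
decides satisfiability on the mixture `(ν₀ + ν₁) / 2` with probability at most
`1 / 2 + 2 ^ (-w / C)`.

2. For `0 < δ < 2`, every `K` and every number of steps `T n = o (n / log n)` there are a width
`w n = O (T n log n) = o (n)` and a number of clauses `M n ≤ n ^ O(T n) = 2 ^ o(n)` such that
randomized parallel machines with at most `(2 - δ) ^ n` times a polynomial in `M n` processors and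
lists of length at most `2 ^ (K n)` do not decide in `T n` steps with error probability at most
`1 / 3` whether a CNF formula with `n` variables, `M n` clauses and width at most `w n` is
satisfiable, for all large `n`. -/
theorem result :
    (∀ (ε : ℝ) (K : ℕ), 0 < ε → ∃ C : ℝ, 0 < C ∧
      ∀ n T w M : ℕ, 2 ≤ n → 1 ≤ T → C * (T * Real.log n) ≤ w → w ≤ n → n * 2 ^ w ≤ M →
      ∃ ν₀ ν₁ : ((Fin M × Fin n × Bool) → Bool) → ℝ,
        ((∀ x, 0 ≤ ν₀ x) ∧ ∑ x, ν₀ x = 1) ∧ ((∀ x, 0 ≤ ν₁ x) ∧ ∑ x, ν₁ x = 1) ∧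
        (∀ x, ν₀ x ≠ 0 → WidthLe x w) ∧ (∀ x, ν₁ x ≠ 0 → WidthLe x w ∧ ∃ α, Models x α) ∧
        (∑ x, ν₀ x * (if ∃ α, Models x α then 1 else 0)) ≤ (2 : ℝ) ^ (-((1 - ε) * n / 2)) ∧
        ∀ (P : ℕ) (A : Machine (Fin M × Fin n × Bool) P), (P : ℝ) ≤ 2 ^ ((1 - ε) * n) →
          A.Lists (2 ^ (K * n)) →
          |(∑ x, ν₀ x * (if A.answer T x = true then 1 else 0)) -
            ∑ x, ν₁ x * (if A.answer T x = true then 1 else 0)| ≤ (2 : ℝ) ^ (-((w : ℝ) / C)) ∧
          ∑ x, (ν₀ x + ν₁ x) / 2 * (if (A.answer T x = true ↔ ∃ α, Models x α) then 1 else 0) ≤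
            1 / 2 + (2 : ℝ) ^ (-((w : ℝ) / C))) ∧
    (∀ (δ : ℝ) (K : ℕ), 0 < δ → δ < 2 → ∀ T : ℕ → ℕ, (∀ n, 1 ≤ T n) →
      (fun n : ℕ => (T n : ℝ) * Real.log n) =o[atTop] (fun n : ℕ => (n : ℝ)) →
      ∃ w M : ℕ → ℕ, (∃ C : ℝ, ∀ n, 2 ≤ n → (w n : ℝ) ≤ C * (T n * Real.log n) ∧
          (M n : ℝ) ≤ (n : ℝ) ^ (C * T n)) ∧
        ∀ c e : ℕ, ∀ᶠ n : ℕ in atTop, ∀ (P : ℕ) (R : RandMachine (Fin (M n) × Fin n × Bool) P),
          (P : ℝ) ≤ (2 - δ) ^ n * (c * (M n : ℝ) ^ e) → R.Lists (2 ^ (K * n)) →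
          ∃ x, WidthLe x (w n) ∧ R.success (T n) x (∃ α, Models x α) < 2 / 3) := by
  refine ⟨fun ε K hε => ?_, fun δ K hδ hδ2 T hT hTo => sat_q1 δ hδ hδ2 K T hT hTo⟩
  obtain ⟨C, hC, H⟩ := sat_average ε hε K
  refine ⟨C, hC, ?_⟩
  intro n T w M hn hT hw hwn hM
  obtain ⟨ν₀, ν₁, h0, h1, h2, h3, h4, h5⟩ := H n T w M hn hT hw hwn hM
  exact ⟨ν₀, ν₁, h0, h1, h2, h3, h4, h5⟩

end Pool.Agent.Results.MP_c62aed_lc.ParallelMachines
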