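import Pool.Agent.W933.Seth.Main

set_option autoImplicit false

/-!
SETH for compilation-based algorithms: `k`-CNFs with `n` variables need DNNFs of size
`2 ^ ((1 - ε) n)`, and every DNNF below such a formula has few models per gate.
-/

namespace Pool.Agent.Results.MP_c62aed_lc.ZDnnfSeth

open Pool.Agent.W933.Seth

theorem result (L : ℕ) (hL : 1 ≤ L) : ∃ c n₀ : ℕ, ∀ n ≥ n₀, ∃ φ : List (List (Fin n × Bool)),
    φ.length ≤ c * n ∧ (∀ C ∈ φ, C.length ≤ 5000 * L * (Nat.log 2 L + 1) ^ 2) ∧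
    (2:ℝ) ^ ((n:ℝ) - n / L) ≤ models (Sat φ) ∧
    (∀ (s w : ℕ) (D : Dnnf n s w) (out : Fin s), 6 * L * w ≤ n →
      (∀ x, D.val out x = true → Sat φ x) →
        (models (fun x => D.val out x = true) : ℝ) ≤ s * 2 ^ ((n:ℝ) / L)) ∧
    (∀ (s w : ℕ) (D : Dnnf n s w) (out : Fin s), 6 * L * w ≤ n →
      (∀ x, D.val out x = true ↔ Sat φ x) → (2:ℝ) ^ ((n:ℝ) - 2 * n / L) ≤ s) := by
  obtain ⟨c, n₀, h⟩ := main L hL
  refine ⟨c, n₀, fun n hn => ?_⟩
  obtain ⟨φ, h1, h2, h3, h4⟩ := h n hn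
  refine ⟨φ, h1, h2, h3, h4, fun s w D out hw hD => ?_⟩
  have h5 := h4 s w D out hw (fun x hx => (hD x).1 hx)
  have h6 : (fun x => D.val out x = true) = Sat φ := funext fun x => propext (hD x)
  rw [h6] at h5
  have h7 := h3.trans h5
  have h8 : (2:ℝ) ^ ((n:ℝ) - n / L) = 2 ^ ((n:ℝ) - 2 * n / L) * 2 ^ ((n:ℝ) / L) := by
    rw [← Real.rpow_add (by norm_num)]; congr 1; ring
  rw [h8] at h7
  exact le_of_mul_le_mul_right h7 (by positivity)

end Pool.Agent.Results.MP_c62aed_lc.ZDnnfSeth
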