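import Mathlib
import Pool.Agent.H559R4.SatDefs
import Pool.Agent.W970.Tri.CircuitDefs
import Pool.Agent.W970.Tri.SatMain
import Pool.Agent.W970.Tri.Upper

/-!
# The strong exponential time hypothesis for circuits of monotone real gates

The satisfiability of a CNF formula with `n` variables and `M` clauses, given by its incidence
matrix, is a monotone function of the `2 * n * M` bits of the matrix. Consider circuits whose gates
compute arbitrary nondecreasing functions of real numbers (of `n ^ a` wires or less), for example
monotone threshold circuits, and random circuits of this kind (a finite family with weights)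
which accept every satisfiable formula with a probability larger by `ε ≥ n ^ (-a)` than every
unsatisfiable one. For every `δ > 0` and every `a` there is a constant `c` such that all these
random circuits have at least `ε * 2 ^ ((1 - δ) * n)` gates when `M ≥ n ^ c` and `n` is large.
Exhaustive search is such a circuit: with fan-in two, with `2 ^ n * (M * (n + 1) + 1) + 1` gates
and without error.

Proof of the lower bound. Let `m = w * g ≤ n` be almost `n`, `w = O(log n)`. Positive and negative
tests are indexed by points `x, y` of the cube of dimension `m`. A family of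
pairs `(A i, Z i)` of subsets of the cube, each of them the set of points whose restriction to `w`
random positions is one of `K` random strings, has these properties: for all `x, y` there is an
`i` with `x ∈ A i`, `y ∈ Z i`; any `r + 1 = O(m / log n)` of the sets `A i` (of the sets `Z i`)
intersect in at most three Hamming balls of radius `o(m)`; each `A i` is a small fraction of the
cube. The formula with the clauses which say that `x` is outside of `A i`, for all `i` with
`y ∈ Z i`, is unsatisfiable for every `y`; the formula with the clauses for all `i` with
`x ∉ A i` is satisfied by `x`. A gate which tells `x` from `y` induces a set of pairs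
`{(x, y) : b y < a x}`, and symmetric approximation (in the way of Berg and Ulfberg, and Jukna),
done at all thresholds simultaneously, shows that there are many such gates. As the intersections
of `r + 1` sets are small and `(fan-in * r) ^ (r + 1) = 2 ^ (o(m))`, the bound is
`2 ^ ((1 - o(1)) * m)`.
-/

namespace Pool.Agent.Results.MP_c62aed_lc.ZMonotoneRealGates

open Filter Pool.Agent.H559R4 Pool.Agent.W970.Tri

theorem result :
    (∀ (δ : ℝ) (_ : 0 < δ) (a : ℕ), ∃ c : ℕ, ∀ᶠ n : ℕ in atTop, ∀ M : ℕ, n ^ c ≤ M →
      ∀ (R : Type) [Fintype R] (p : R → ℝ) (C : R → RealCircuit (Fin M × Fin n × Bool))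
        (S : ℕ) (ε : ℝ),
        (∀ ρ, 0 ≤ p ρ) → ∑ ρ, p ρ = 1 →
        (∀ ρ, (C ρ).size ≤ S ∧ (C ρ).IsMono (n ^ a)) →
        1 / (n : ℝ) ^ a ≤ ε →
        (∀ F G, Sat F → ¬ Sat G → ε ≤ acceptProb p C F - acceptProb p C G) →
        ε * (2 : ℝ) ^ ((1 - δ) * n) ≤ S) ∧
    (∀ n M : ℕ, ∃ C : RealCircuit (Fin M × Fin n × Bool),
      C.size = 2 ^ n * (M * (n + 1) + 1) + 1 ∧ C.IsMono 2 ∧ ∀ F, C.Accepts F ↔ Sat F) :=
  ⟨fun _ hδ a => sat_lower hδ a, sat_upper⟩

end Pool.Agent.Results.MP_c62aed_lc.ZMonotoneRealGates
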